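import Mathlib
import Pool.Agent.V1176.LegC

set_option autoImplicit false

open Polynomial Pool.Agent.V1176 Pool.Agent.V1176.Leg

namespace Pool.Agent.Results.MP_87bea5_an.OddDegree

/-- For every odd `d` and every real polynomial `Q` of degree `d`, the sequence `{Q(k)}` is not a
Legendre multiplier sequence. -/
theorem result : ∀ d : ℕ, Odd d → ∀ Q : ℝ[X], Q.natDegree = d →
    ¬ IsLegendreMS (fun k => Q.eval (k : ℝ)) :=
  fun _ hd Q hQ => main Q (hQ ▸ hd)

end Pool.Agent.Results.MP_87bea5_an.OddDegree
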